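import Pool.Agent.helper32.QS.Spec

/-!
# Module HH2 of the project QS (MP_e82547_al)

`G` finite solvable, `p` odd, without nontrivial normal `p'`-subgroups. If the elements of order `p`
of a Sylow `p`-subgroup commute, then all elements of order `p` of `G` commute.
-/

set_option autoImplicit false

open scoped BigOperators commutatorElement

namespace QS

/-- an element commuting with all `w ∈ Q`, `w ^ p = 1`, is a `p`-element (when `Q` is a normal
`p`-subgroup containing its centraliser and `p` is odd) -/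
theorem HH2_pelt (hOMG : OMG_stmt) (G : Type) [Group G] [Finite G] (p : ℕ) (hp : p.Prime)
    (hp2 : p ≠ 2) (Q : Subgroup G) [Q.Normal] (hQp : IsPGroup p Q)
    (hQc : ∀ x : G, (∀ y ∈ Q, x * y = y * x) → x ∈ Q) (d : G)
    (hd : ∀ w ∈ Q, w ^ p = 1 → d * w = w * d) : ∃ k : ℕ, d ^ p ^ k = 1 := by
  have hpos : 0 < orderOf d := orderOf_pos d
  obtain ⟨k, m, hm, hkm⟩ := Nat.exists_eq_pow_mul_and_not_dvd hpos.ne' p hp.one_lt.ne'
  refine ⟨k, ?_⟩
  have hdm : (d ^ p ^ k) ^ m = 1 := by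
    rw [← pow_mul, ← hkm, pow_orderOf_eq_one]
  have hcomm : ∀ w ∈ Q, w ^ p = 1 → d ^ p ^ k * w = w * d ^ p ^ k := by
    intro w hw hwp
    exact (Commute.pow_left (show Commute d w from hd w hw hwp) (p ^ k)).eq
  have hφ : (MulAut.conjNormal (d ^ p ^ k) : MulAut Q) = 1 := by
    refine hOMG Q p hp hp2 hQp (MulAut.conjNormal (d ^ p ^ k)) m hm ?_ ?_
    · rw [← map_pow, hdm, map_one]
    · intro w hw
      apply Subtype.ext
      rw [MulAut.conjNormal_apply]
      have hw' : (w : G) ^ p = 1 := by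
        have := congrArg (Subtype.val) hw
        simpa using this
      rw [hcomm w w.2 hw', mul_inv_cancel_right]
  have hin : d ^ p ^ k ∈ Q := by
    refine hQc _ ?_
    intro y hy
    have h1 : (MulAut.conjNormal (d ^ p ^ k) : MulAut Q) ⟨y, hy⟩ = ⟨y, hy⟩ := by
      rw [hφ]; rfl
    have h2 := congrArg Subtype.val h1
    rw [MulAut.conjNormal_apply] at h2
    have h3 : d ^ p ^ k * y * (d ^ p ^ k)⁻¹ = y := h2
    calc d ^ p ^ k * y = d ^ p ^ k * y * (d ^ p ^ k)⁻¹ * d ^ p ^ k := by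
          rw [inv_mul_cancel_right]
      _ = y * d ^ p ^ k := by rw [h3]
  obtain ⟨j, hj⟩ := hQp ⟨d ^ p ^ k, hin⟩
  have hj' : (d ^ p ^ k) ^ p ^ j = 1 := by
    have := congrArg (Subtype.val) hj
    simpa using this
  have h1 : orderOf (d ^ p ^ k) ∣ m := orderOf_dvd_of_pow_eq_one hdm
  have h2 : orderOf (d ^ p ^ k) ∣ p ^ j := orderOf_dvd_of_pow_eq_one hj'
  have hcop : Nat.Coprime m (p ^ j) :=
    Nat.Coprime.pow_right j ((Nat.Prime.coprime_iff_not_dvd hp).2 hm).symm
  have h3 : orderOf (d ^ p ^ k) = 1 := Nat.eq_one_of_dvd_coprimes hcop h1 h2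
  exact orderOf_eq_one_iff.1 h3

/-- the centraliser of the elements of order `p` of `Q` -/
theorem HH2_normal (G : Type) [Group G] (p : ℕ) (Q : Subgroup G) (hQ : Q.Normal) :
    (Subgroup.centralizer ({w : G | w ∈ Q ∧ w ^ p = 1})).Normal := by
  constructor
  intro n hn g
  rw [Subgroup.mem_centralizer_iff] at hn ⊢
  rintro w ⟨hw, hwp⟩
  have h1 : g⁻¹ * w * g ∈ {w : G | w ∈ Q ∧ w ^ p = 1} := by
    refine ⟨?_, ?_⟩
    · have := hQ.conj_mem w hw g⁻¹
      simpa using this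
    · have := conj_pow (a := g⁻¹) (b := w) (i := p)
      rw [inv_inv] at this
      rw [this, hwp, mul_one, inv_mul_cancel]
  have h2 := hn _ h1
  calc w * (g * n * g⁻¹) = g * (g⁻¹ * w * g * n) * g⁻¹ := by group
    _ = g * (n * (g⁻¹ * w * g)) * g⁻¹ := by rw [h2]
    _ = g * n * g⁻¹ * w := by group

theorem HH2 (hHH1 : HH1_stmt) (hOMG : OMG_stmt) : HH2_stmt := by
  intro G _ _ p hp hp2 hsol hN S hS
  have : Fact p.Prime := ⟨hp⟩
  obtain ⟨Q, hQn, hQp, hQmax, hQc⟩ := hHH1 G p hp hsol hN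
  have := hQn
  have hDn := HH2_normal G p Q hQn
  have hDp : IsPGroup p (Subgroup.centralizer ({w : G | w ∈ Q ∧ w ^ p = 1})) := by
    rintro ⟨d, hd⟩
    rw [Subgroup.mem_centralizer_iff] at hd
    obtain ⟨k, hk⟩ := HH2_pelt hOMG G p hp hp2 Q hQp hQc d
      (fun w hw hwp => (hd w ⟨hw, hwp⟩).symm)
    exact ⟨k, Subtype.ext (by simpa using hk)⟩
  have hDQ := hQmax _ hDn hDp
  have hQS : Q ≤ (S : Subgroup G) := by
    have h1 : IsPGroup p (Q ⊔ (S : Subgroup G) : Subgroup G) :=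
      IsPGroup.to_sup_of_normal_left hQp S.isPGroup'
    have h2 := S.is_maximal' h1 le_sup_right
    exact le_trans le_sup_left (le_of_eq h2)
  have key : ∀ x : G, x ^ p = 1 → x ∈ (S : Subgroup G) := by
    intro x hx
    have hz : IsPGroup p (Subgroup.zpowers x) := by
      rintro ⟨y, hy⟩
      obtain ⟨n, rfl⟩ := hy
      refine ⟨1, Subtype.ext ?_⟩
      simp only [SubmonoidClass.coe_pow, pow_one, OneMemClass.coe_one]
      rw [← zpow_natCast, ← zpow_mul, mul_comm, zpow_mul, zpow_natCast, hx, one_zpow]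
    obtain ⟨P, hP⟩ := hz.exists_le_sylow
    obtain ⟨g, hg⟩ := MulAction.exists_smul_eq G P S
    have hxP : x ∈ (P : Subgroup G) := hP (Subgroup.mem_zpowers x)
    have hxS : g * x * g⁻¹ ∈ (S : Subgroup G) := by
      rw [← hg]
      show g * x * g⁻¹ ∈ ((g • P : Sylow p G) : Subgroup G)
      rw [Sylow.coe_subgroup_smul]
      have := Subgroup.smul_mem_pointwise_smul x (MulAut.conj g) (P : Subgroup G) hxP
      simpa using this
    have hpow : (g * x * g⁻¹) ^ p = 1 := by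
      rw [conj_pow, hx, mul_one, mul_inv_cancel]
    have hxD : g * x * g⁻¹ ∈ Subgroup.centralizer ({w : G | w ∈ Q ∧ w ^ p = 1}) := by
      rw [Subgroup.mem_centralizer_iff]
      rintro w ⟨hw, hwp⟩
      exact hS w (hQS hw) _ hxS hwp hpow
    have hxQ : g * x * g⁻¹ ∈ Q := hDQ hxD
    have hx2 := hQn.conj_mem _ hxQ g⁻¹
    have hx3 : g⁻¹ * (g * x * g⁻¹) * g⁻¹⁻¹ = x := by group
    rw [hx3] at hx2
    exact hQS hx2
  intro x y hx hy
  exact hS x (key x hx) y (key y hy) hx hy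

end QS
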